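import Pool.Agent.HT177.HolMd.Space
import Pool.Agent.HT177.HolMd.Charts
import Pool.Agent.HT177.HolMd.Main

/-!
# Hölder limits of bi-Lipschitz homeomorphisms: the metric mean dimension is not `(1 - α) dim X`

Let `X` be compact and locally bi-Lipschitz to `ℝ^d`, embedded in `ℝ^N` by a bi-Lipschitz map, and
let `L_α` be the closure of the bi-Lipschitz homeomorphisms of `X` in the `α`-Hölder metric. If
`1 - 1/d < α < 1`, then every `T ∈ L_α` has upper metric mean dimension at most
`max {(1 - α) ((d - 1) / α + d), (1 - α²) d} / 2 < (1 - α) d`. In particular the maps with value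
`(1 - α) d` are not residual.

Idea: if a homeomorphism `S` near `T` maps a cell `p` of a grid of mesh `1 / M` over a cell `q`,
then `q` meets the image of the boundary of `p` (few cells `q`, as the boundary has dimension
`d - 1`), or `q` lies in the image of the interior of `p` (few cells `p`, for given `q`). Two
consecutive transitions of the second type are controlled by the diameter of `S² (p)`.
-/

set_option autoImplicit false
open Set Filter Topology

namespace Pool.Agent.Results.MP_74738e_an.LargeExponents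

open Pool.Agent.HT177.HolMd

theorem result (d : ℕ) (hd : 1 ≤ d) (X : Type) [MetricSpace X] [CompactSpace X]
    (hX : LipManifold d X) (N : ℕ) (E : Embedding X N) (α : ℝ) (hα : 1 - 1 / (d : ℝ) < α)
    (hα1 : α < 1) :
    (∀ T : LSpace E α, upperMdim T.1 ≤
      ((max ((1 - α) * (((d : ℝ) - 1) / α + d)) ((1 - α ^ 2) * d) / 2 : ℝ) : EReal)) ∧
    max ((1 - α) * (((d : ℝ) - 1) / α + d)) ((1 - α ^ 2) * d) / 2 < (1 - α) * d ∧
    {T : LSpace E α | upperMdim T.1 = (((1 - α) * d : ℝ) : EReal)} ∉ residual (LSpace E α) := by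
  have hd1 : (1 : ℝ) ≤ d := by exact_mod_cast hd
  have hd0 : (0 : ℝ) < d := by linarith
  have hα0 : 0 < α := by
    have : 1 / (d : ℝ) ≤ 1 := by rw [div_le_one hd0]; exact hd1
    linarith
  have hlt : max ((1 - α) * (((d : ℝ) - 1) / α + d)) ((1 - α ^ 2) * d) / 2 < (1 - α) * d := by
    have h1 : ((d : ℝ) - 1) / α < d := by
      rw [div_lt_iff₀ hα0]
      have h2 : (1 - 1 / (d : ℝ)) * d < α * d := mul_lt_mul_of_pos_right hα hd0
      have h3 : (1 - 1 / (d : ℝ)) * d = d - 1 := by field_simp
      linarith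
    have h4 : (1 - α) * (((d : ℝ) - 1) / α + d) < (1 - α) * (d + d) :=
      mul_lt_mul_of_pos_left (by linarith) (by linarith)
    have h5 : (1 - α ^ 2) * d < (1 - α) * (d + d) := by
      have h6 : (1 - α ^ 2) * d = (1 - α) * ((1 + α) * d) := by ring
      rw [h6]
      apply mul_lt_mul_of_pos_left _ (by linarith)
      nlinarith
    have h7 : max ((1 - α) * (((d : ℝ) - 1) / α + d)) ((1 - α ^ 2) * d) < (1 - α) * (d + d) :=
      max_lt h4 h5
    linarith
  have hub : ∀ T : LSpace E α, upperMdim T.1 ≤
      ((max ((1 - α) * (((d : ℝ) - 1) / α + d)) ((1 - α ^ 2) * d) / 2 : ℝ) : EReal) := by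
    intro T
    obtain ⟨ι, _, K, g, hA⟩ := exists_atlas hX
    obtain ⟨H, hH, hap⟩ := LSpace.sep E hα0 hα1.le T
    refine hA.mdim_le hd hH hα0 hα1.le ?_ (le_max_right _ _) hap
    refine le_trans (le_of_eq ?_) (le_max_left _ _)
    field_simp
  refine ⟨hub, hlt, ?_⟩
  intro hres
  haveI := LSpace.complete E hα1.le
  haveI := LSpace.nonempty E hα1.le
  obtain ⟨T, hT⟩ := (dense_of_mem_residual hres).nonempty
  have h1 := hub T
  have h2 : upperMdim T.1 = (((1 - α) * d : ℝ) : EReal) := hT
  rw [h2, EReal.coe_le_coe_iff] at h1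
  linarith

end Pool.Agent.Results.MP_74738e_an.LargeExponents
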